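import Pool.Agent.U485.SM.Stm

/-!
# Project HT, package UNI: the union bound and the Borel-Cantelli lemma
-/

set_option autoImplicit false

open Finset MeasureTheory ProbabilityTheory Filter Topology
open Pool.Agent.U485.SM

namespace Pool.Agent.U668.HT

open Classical in
/-- The points where two distinct forms agree. -/
theorem agree_card (F : Finset (ℤ × ℤ)) (V : Finset ℤ) (k : ℕ) (hF : F.card ≤ k) :
    (V.filter fun n => ∃ f ∈ F, ∃ g ∈ F, f ≠ g ∧ val f n = val g n).card ≤ k ^ 2 := by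
  calc (V.filter fun n => ∃ f ∈ F, ∃ g ∈ F, f ≠ g ∧ val f n = val g n).card
      ≤ ((F ×ˢ F).image (fun q : (ℤ × ℤ) × (ℤ × ℤ) =>
          (q.2.2 - q.1.2) / (q.1.1 - q.2.1))).card := by
        apply Finset.card_le_card
        intro n hn
        rw [Finset.mem_filter] at hn
        obtain ⟨_, f, hf, g, hg, hfg, h⟩ := hn
        rw [Finset.mem_image]
        refine ⟨(f, g), Finset.mem_product.2 ⟨hf, hg⟩, ?_⟩
        unfold Pool.Agent.U485.SM.val at h
        have h1 : f.1 - g.1 ≠ 0 := by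
          intro h0
          apply hfg
          have h3 : f.1 = g.1 := by omega
          refine Prod.ext h3 ?_
          rw [h3] at h
          linarith
        have h2 : g.2 - f.2 = (f.1 - g.1) * n := by linarith
        show (g.2 - f.2) / (f.1 - g.1) = n
        rw [h2, Int.mul_ediv_cancel_left _ h1]
    _ ≤ (F ×ˢ F).card := Finset.card_image_le
    _ = F.card * F.card := Finset.card_product _ _
    _ ≤ k ^ 2 := by rw [sq]; exact Nat.mul_le_mul hF hF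

open Classical in
/-- The conflicts of a point. -/
theorem conflict_card (F : Finset (ℤ × ℤ)) (V : Finset ℤ) (k : ℕ) (hF : F.card ≤ k)
    (h0 : ∀ f ∈ F, f.1 ≠ 0) (hpos : ∀ n ∈ V, ∀ f ∈ F, 0 < val f n) (n : ℤ) (hn : n ∈ V) :
    {m : ℤ | m ∈ V ∧ m ≠ n ∧ ¬ Disjoint (F.image fun f => (val f n).toNat)
      (F.image fun f => (val f m).toNat)}.ncard ≤ k ^ 2 := by
  have hsub : {m : ℤ | m ∈ V ∧ m ≠ n ∧ ¬ Disjoint (F.image fun f => (val f n).toNat)
      (F.image fun f => (val f m).toNat)} ⊆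
      (((F ×ˢ F).image (fun q : (ℤ × ℤ) × (ℤ × ℤ) => (val q.1 n - q.2.2) / q.2.1) :
        Finset ℤ) : Set ℤ) := by
    rintro m ⟨hm, _, hd⟩
    rw [Finset.not_disjoint_iff] at hd
    obtain ⟨a, ha, hb⟩ := hd
    rw [Finset.mem_image] at ha hb
    obtain ⟨f, hf, rfl⟩ := ha
    obtain ⟨g, hg, hgf⟩ := hb
    have h1 := hpos n hn f hf
    have h2 := hpos m hm g hg
    have h3 : val g m = val f n := by omega
    rw [Finset.mem_coe, Finset.mem_image]
    refine ⟨(f, g), Finset.mem_product.2 ⟨hf, hg⟩, ?_⟩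
    show (val f n - g.2) / g.1 = m
    rw [← h3]
    unfold Pool.Agent.U485.SM.val
    rw [add_sub_cancel_right, Int.mul_ediv_cancel_left _ (h0 g hg)]
  calc _ ≤ (((F ×ˢ F).image (fun q : (ℤ × ℤ) × (ℤ × ℤ) => (val q.1 n - q.2.2) / q.2.1) :
        Finset ℤ) : Set ℤ).ncard := Set.ncard_le_ncard hsub (Finset.finite_toSet _)
    _ = ((F ×ˢ F).image (fun q : (ℤ × ℤ) × (ℤ × ℤ) => (val q.1 n - q.2.2) / q.2.1)).card :=
        Set.ncard_coe_finset _
    _ ≤ (F ×ˢ F).card := Finset.card_image_le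
    _ = F.card * F.card := Finset.card_product _ _
    _ ≤ k ^ 2 := by rw [sq]; exact Nat.mul_le_mul hF hF

open Classical in
/-- Products over the forms and products over the set of values. -/
theorem sum_close (F : Finset (ℤ × ℤ)) (V : Finset ℤ) (p : ℕ → ℝ) (hp0 : ∀ j, 0 ≤ p j)
    (hp1 : ∀ j, p j ≤ 1) (k : ℕ) (hF : F.card ≤ k) (hpos : ∀ n ∈ V, ∀ f ∈ F, 0 < val f n) :
    ∑ n ∈ V, ∏ f ∈ F, p (val f n).toNat ≤
      ∑ n ∈ V, ∏ j ∈ F.image (fun f => (val f n).toNat), p j ∧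
    ∑ n ∈ V, ∏ j ∈ F.image (fun f => (val f n).toNat), p j ≤
      ∑ n ∈ V, ∏ f ∈ F, p (val f n).toNat + (k : ℝ) ^ 2 := by
  constructor
  · refine Finset.sum_le_sum fun n _ => ?_
    rw [Finset.prod_comp p (fun f => (val f n).toNat)]
    refine Finset.prod_le_prod (fun j _ => pow_nonneg (hp0 j) _) fun j hj => ?_
    refine pow_le_of_le_one (hp0 j) (hp1 j) ?_
    rw [Finset.mem_image] at hj
    obtain ⟨f, hf, hfj⟩ := hj
    exact (Finset.card_pos.2 ⟨f, Finset.mem_filter.2 ⟨hf, hfj⟩⟩).ne'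
  · have h1 : ∀ n ∈ V, ∏ j ∈ F.image (fun f => (val f n).toNat), p j ≤
        ∏ f ∈ F, p (val f n).toNat +
          (if ∃ f ∈ F, ∃ g ∈ F, f ≠ g ∧ val f n = val g n then (1 : ℝ) else 0) := by
      intro n hn
      split_ifs with hc
      · have h2 : ∏ j ∈ F.image (fun f => (val f n).toNat), p j ≤ 1 :=
          Finset.prod_le_one (fun j _ => hp0 j) fun j _ => hp1 j
        have h3 : 0 ≤ ∏ f ∈ F, p (val f n).toNat := Finset.prod_nonneg fun f _ => hp0 _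
        linarith
      · rw [add_zero, Finset.prod_image]
        intro f hf g hg hfg
        by_contra hne
        exact hc ⟨f, hf, g, hg, hne, by
          have h2 := hpos n hn f hf
          have h3 := hpos n hn g hg
          simp only at hfg
          omega⟩
    refine (Finset.sum_le_sum h1).trans ?_
    rw [Finset.sum_add_distrib, Finset.sum_boole]
    have h4 := agree_card F V k hF
    have h5 : ((V.filter fun n => ∃ f ∈ F, ∃ g ∈ F, f ≠ g ∧ val f n = val g n).card : ℝ) ≤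
        (k : ℝ) ^ 2 := by exact_mod_cast h4
    linarith

open Classical in
/-- One window, one system. -/
theorem one_event (h : S_CHE) {Ω : Type} {mΩ : MeasurableSpace Ω} (μ : Measure Ω)
    (hμ : IsProbabilityMeasure μ) (E : ℕ → Set Ω) (hE : ∀ n, MeasurableSet (E n))
    (hI : iIndepSet E μ) (k : ℕ) (F : Finset (ℤ × ℤ)) (V : Finset ℤ) (hF : F.card ≤ k)
    (h0 : ∀ f ∈ F, f.1 ≠ 0) (hpos : ∀ n ∈ V, ∀ f ∈ F, 0 < val f n) (ε lam : ℝ) (hε : 0 < ε)
    (hε1 : ε ≤ 1) (hl : 0 ≤ lam) :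
    μ.real {ω | ε * ∑ n ∈ V, ∏ f ∈ F, μ.real (E (val f n).toNat) +
        (2 * (k : ℝ) ^ 2 + ((k : ℝ) ^ 2 + 1) * lam) <
      |((V.filter (fun n => ∀ f ∈ F, ω ∈ E (val f n).toNat)).card : ℝ) -
        ∑ n ∈ V, ∏ f ∈ F, μ.real (E (val f n).toNat)|} ≤
      2 * ((k : ℝ) ^ 2 + 1) * Real.exp (-(ε * lam / 2)) := by
  have h1 := h Ω mΩ μ hμ E hE hI V (fun n => F.image (fun f => (val f n).toNat)) (k ^ 2)
    (fun n hn => conflict_card F V k hF h0 hpos n hn) ε lam hε hε1 hl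
  push_cast at h1
  refine le_trans (measureReal_mono ?_) h1
  intro ω hω
  have hω' : ε * ∑ n ∈ V, ∏ f ∈ F, μ.real (E (val f n).toNat) +
        (2 * (k : ℝ) ^ 2 + ((k : ℝ) ^ 2 + 1) * lam) <
      |((V.filter (fun n => ∀ f ∈ F, ω ∈ E (val f n).toNat)).card : ℝ) -
        ∑ n ∈ V, ∏ f ∈ F, μ.real (E (val f n).toNat)| := hω
  show ε * ∑ n ∈ V, ∏ j ∈ F.image (fun f => (val f n).toNat), μ.real (E j) +
      ((k : ℝ) ^ 2 + 1) * lam <
    |((V.filter (fun n => ∀ j ∈ F.image (fun f => (val f n).toNat), ω ∈ E j)).card : ℝ) -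
      ∑ n ∈ V, ∏ j ∈ F.image (fun f => (val f n).toNat), μ.real (E j)|
  have hfil : (V.filter (fun n => ∀ j ∈ F.image (fun f => (val f n).toNat), ω ∈ E j)) =
      V.filter (fun n => ∀ f ∈ F, ω ∈ E (val f n).toNat) := by
    apply Finset.filter_congr
    intro n _
    simp only [Finset.mem_image, forall_exists_index, and_imp, forall_apply_eq_imp_iff₂]
  rw [hfil]
  obtain ⟨hc1, hc2⟩ := sum_close F V (fun j => μ.real (E j)) (fun j => measureReal_nonneg)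
    (fun j => measureReal_le_one) k hF hpos
  set S := ∑ n ∈ V, ∏ f ∈ F, μ.real (E (val f n).toNat) with hS
  set S' := ∑ n ∈ V, ∏ j ∈ F.image (fun f => (val f n).toNat), μ.real (E j) with hS'
  set A : ℝ := ((V.filter (fun n => ∀ f ∈ F, ω ∈ E (val f n).toNat)).card : ℝ) with hA
  have h2 : |A - S| ≤ |A - S'| + (k : ℝ) ^ 2 := by
    have h3 : A - S = (A - S') + (S' - S) := by ring
    rw [h3]
    refine (abs_add_le _ _).trans (add_le_add le_rfl ?_)
    rw [abs_of_nonneg (by linarith)]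
    linarith
  have h4 : ε * S' ≤ ε * S + (k : ℝ) ^ 2 := by
    have h5 : ε * S' ≤ ε * (S + (k : ℝ) ^ 2) := mul_le_mul_of_nonneg_left hc2 hε.le
    have h6 : ε * (k : ℝ) ^ 2 ≤ 1 * (k : ℝ) ^ 2 := mul_le_mul_of_nonneg_right hε1 (by positivity)
    linarith
  linarith

theorem exists_enum {α : Type} [DecidableEq α] (F : Finset α) (k : ℕ) (hF : F.card ≤ k)
    (hne : F.Nonempty) : ∃ g : Fin k → α, Finset.univ.image g = F := by
  have : Nonempty F := hne.to_subtype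
  obtain ⟨e⟩ := Function.Embedding.nonempty_of_card_le (α := F) (β := Fin k) (by simpa using hF)
  refine ⟨fun i => (Function.invFun e i : F), ?_⟩
  ext a
  rw [Finset.mem_image]
  constructor
  · rintro ⟨i, _, rfl⟩
    exact (Function.invFun e i).2
  · intro ha
    obtain ⟨i, hi⟩ := Function.invFun_surjective e.injective ⟨a, ha⟩
    exact ⟨i, Finset.mem_univ _, by rw [hi]⟩

open Classical in
/-- The number of the points of `V` for which all values of the forms are chosen. -/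
noncomputable def cnt {Ω : Type} (E : ℕ → Set Ω) (F : Finset (ℤ × ℤ)) (V : Finset ℤ) (ω : Ω) : ℝ :=
  ((V.filter (fun n => ∀ f ∈ F, ω ∈ E (val f n).toNat)).card : ℝ)

open Classical in
/-- The inequality of the theorem, for all systems and windows of size at most `x ^ C`. -/
def Good {Ω : Type} {mΩ : MeasurableSpace Ω} (μ : Measure Ω) (E : ℕ → Set Ω) (k C : ℕ)
    (ε η : ℝ) (x : ℕ) (ω : Ω) : Prop :=
  ∀ (F : Finset (ℤ × ℤ)) (J1 J2 : ℤ), F.card ≤ k →
    (∀ f ∈ F, f.1 ≠ 0 ∧ |f.1| ≤ (x : ℤ) ^ C ∧ |f.2| ≤ (x : ℤ) ^ C) →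
    |J1| ≤ (x : ℤ) ^ C → |J2| ≤ (x : ℤ) ^ C → (∀ n ∈ Finset.Ioc J1 J2, ∀ f ∈ F, 0 < val f n) →
    |cnt E F (Finset.Ioc J1 J2) ω -
        ∑ n ∈ Finset.Ioc J1 J2, ∏ f ∈ F, μ.real (E (val f n).toNat)| ≤
      ε * ∑ n ∈ Finset.Ioc J1 J2, ∏ f ∈ F, μ.real (E (val f n).toNat) + (x : ℝ) ^ η

/-- The number of the events. -/
theorem card_index (k C x : ℕ) :
    ((Fintype.piFinset (fun _ : Fin k => Finset.Icc (-((x : ℤ) ^ C)) ((x : ℤ) ^ C) ×ˢ
        Finset.Icc (-((x : ℤ) ^ C)) ((x : ℤ) ^ C)) ×ˢ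
      (Finset.Icc (-((x : ℤ) ^ C)) ((x : ℤ) ^ C) ×ˢ
        Finset.Icc (-((x : ℤ) ^ C)) ((x : ℤ) ^ C))).card : ℝ) =
      (2 * (x : ℝ) ^ C + 1) ^ (2 * k + 2) := by
  rw [Finset.card_product, Finset.card_product, Fintype.card_piFinset_const,
    Finset.card_product, Int.card_Icc]
  have h1 : (((x : ℤ) ^ C + 1 - -((x : ℤ) ^ C)).toNat : ℝ) = 2 * (x : ℝ) ^ C + 1 := by
    have h2 : (x : ℤ) ^ C + 1 - -((x : ℤ) ^ C) = ((2 * x ^ C + 1 : ℕ) : ℤ) := by
      push_cast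
      ring
    rw [h2, Int.toNat_natCast]
    push_cast
    ring
  push_cast
  rw [h1, pow_add, pow_mul, sq]

open Classical in
/-- The probability of the bad event. -/
theorem bad_le (h : S_CHE) {Ω : Type} {mΩ : MeasurableSpace Ω} (μ : Measure Ω)
    (hμ : IsProbabilityMeasure μ) (E : ℕ → Set Ω) (hE : ∀ n, MeasurableSet (E n))
    (hI : iIndepSet E μ) (k C : ℕ) (ε η : ℝ) (hε : 0 < ε) (hε1 : ε ≤ 1) (x : ℕ)
    (hx : 4 * (k : ℝ) ^ 2 ≤ (x : ℝ) ^ η) :
    μ.real {ω | ¬ Good μ E k C ε η x ω} ≤ (2 * (x : ℝ) ^ C + 1) ^ (2 * k + 2) *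
      (2 * ((k : ℝ) ^ 2 + 1) *
        Real.exp (-(ε * ((x : ℝ) ^ η / (4 * ((k : ℝ) ^ 2 + 1))) / 2))) := by
  set X : ℤ := (x : ℤ) ^ C with hX
  set I := (Fintype.piFinset (fun _ : Fin k => Finset.Icc (-X) X ×ˢ Finset.Icc (-X) X) ×ˢ
      (Finset.Icc (-X) X ×ˢ Finset.Icc (-X) X)) with hIdef
  set ev : (Fin k → ℤ × ℤ) × (ℤ × ℤ) → Set Ω := fun t =>
    {ω | (∀ f ∈ Finset.univ.image t.1, f.1 ≠ 0) ∧
      (∀ n ∈ Finset.Ioc t.2.1 t.2.2, ∀ f ∈ Finset.univ.image t.1, 0 < val f n) ∧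
      ε * ∑ n ∈ Finset.Ioc t.2.1 t.2.2, ∏ f ∈ Finset.univ.image t.1,
          μ.real (E (val f n).toNat) + (x : ℝ) ^ η <
      |cnt E (Finset.univ.image t.1) (Finset.Ioc t.2.1 t.2.2) ω -
        ∑ n ∈ Finset.Ioc t.2.1 t.2.2, ∏ f ∈ Finset.univ.image t.1,
          μ.real (E (val f n).toNat)|} with hev
  have hcov : {ω | ¬ Good μ E k C ε η x ω} ⊆ ⋃ t ∈ I, ev t := by
    intro ω hω
    have hω' : ¬ Good μ E k C ε η x ω := hω
    unfold Good at hω'
    push Not at hω'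
    obtain ⟨F, J1, J2, hF, hbox, hJ1, hJ2, hpos, hfail⟩ := hω'
    have hne : F.Nonempty := by
      rw [Finset.nonempty_iff_ne_empty]
      rintro rfl
      simp [cnt] at hfail
      have h0 : (0 : ℝ) ≤ (x : ℝ) ^ η := Real.rpow_nonneg (Nat.cast_nonneg x) η
      have h1 : 0 ≤ ε * ((J2 - J1).toNat : ℝ) := by positivity
      linarith
    obtain ⟨g, hg⟩ := exists_enum F k hF hne
    simp only [Set.mem_iUnion]
    refine ⟨(g, (J1, J2)), ?_, ?_⟩
    · rw [hIdef, Finset.mem_product, Fintype.mem_piFinset, Finset.mem_product]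
      rw [abs_le] at hJ1 hJ2
      refine ⟨fun i => ?_, Finset.mem_Icc.2 hJ1, Finset.mem_Icc.2 hJ2⟩
      have hi : g i ∈ F := by
        rw [← hg]
        exact Finset.mem_image_of_mem _ (Finset.mem_univ i)
      obtain ⟨_, h2, h3⟩ := hbox _ hi
      rw [abs_le] at h2 h3
      exact Finset.mem_product.2 ⟨Finset.mem_Icc.2 h2, Finset.mem_Icc.2 h3⟩
    · rw [hev]
      simp only [hg]
      exact ⟨fun f hf => (hbox f hf).1, hpos, hfail⟩
  have hone : ∀ t ∈ I, μ.real (ev t) ≤ 2 * ((k : ℝ) ^ 2 + 1) *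
      Real.exp (-(ε * ((x : ℝ) ^ η / (4 * ((k : ℝ) ^ 2 + 1))) / 2)) := by
    intro t _
    by_cases hc : (∀ f ∈ Finset.univ.image t.1, f.1 ≠ 0) ∧
      (∀ n ∈ Finset.Ioc t.2.1 t.2.2, ∀ f ∈ Finset.univ.image t.1, 0 < val f n)
    · refine le_trans (measureReal_mono ?_)
        (one_event h μ hμ E hE hI k (Finset.univ.image t.1) (Finset.Ioc t.2.1 t.2.2) ?_ hc.1 hc.2
          ε ((x : ℝ) ^ η / (4 * ((k : ℝ) ^ 2 + 1))) hε hε1 ?_)
      · rintro ω ⟨_, _, hω⟩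
        refine lt_of_le_of_lt (b := ε * ∑ n ∈ Finset.Ioc t.2.1 t.2.2,
          ∏ f ∈ Finset.univ.image t.1, μ.real (E (val f n).toNat) + (x : ℝ) ^ η)
          (add_le_add le_rfl ?_) hω
        have h1 : ((k : ℝ) ^ 2 + 1) * ((x : ℝ) ^ η / (4 * ((k : ℝ) ^ 2 + 1))) =
            (x : ℝ) ^ η / 4 := by
          have : (k : ℝ) ^ 2 + 1 ≠ 0 := by positivity
          field_simp
        rw [h1]
        have h0 : (0 : ℝ) ≤ (x : ℝ) ^ η := Real.rpow_nonneg (Nat.cast_nonneg x) η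
        linarith
      · refine Finset.card_image_le.trans ?_
        simp
      · have h0 : (0 : ℝ) ≤ (x : ℝ) ^ η := Real.rpow_nonneg (Nat.cast_nonneg x) η
        positivity
    · have h1 : ev t = ∅ := by
        rw [Set.eq_empty_iff_forall_notMem]
        rintro ω ⟨h2, h3, _⟩
        exact hc ⟨h2, h3⟩
      rw [h1, measureReal_empty]
      positivity
  calc μ.real {ω | ¬ Good μ E k C ε η x ω} ≤ μ.real (⋃ t ∈ I, ev t) :=
        measureReal_mono hcov (measure_ne_top μ _)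
    _ ≤ ∑ t ∈ I, μ.real (ev t) := measureReal_biUnion_finset_le I ev
    _ ≤ ∑ t ∈ I, (2 * ((k : ℝ) ^ 2 + 1) *
        Real.exp (-(ε * ((x : ℝ) ^ η / (4 * ((k : ℝ) ^ 2 + 1))) / 2))) :=
        Finset.sum_le_sum hone
    _ = _ := by
        rw [Finset.sum_const, nsmul_eq_mul, hIdef, hX, card_index]

/-- The probabilities of the bad events are summable. -/
theorem eventually_small (k C : ℕ) (ε η : ℝ) (hε : 0 < ε) (hη : 0 < η) :
    ∀ᶠ x : ℕ in atTop, (2 * (x : ℝ) ^ C + 1) ^ (2 * k + 2) *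
      (2 * ((k : ℝ) ^ 2 + 1) *
        Real.exp (-(ε * ((x : ℝ) ^ η / (4 * ((k : ℝ) ^ 2 + 1))) / 2))) ≤ 1 / (x : ℝ) ^ 2 := by
  set c : ℝ := ε / (8 * ((k : ℝ) ^ 2 + 1)) with hc
  have hcpos : 0 < c := by positivity
  set M : ℝ := ((C * (2 * k + 2) + 2 : ℕ) : ℝ) with hM
  set K : ℝ := 3 ^ (2 * k + 2) * (2 * ((k : ℝ) ^ 2 + 1)) with hK
  have hlim : Tendsto (fun x : ℕ => K * (((x : ℝ) ^ η) ^ (M / η) *
      Real.exp (-c * (x : ℝ) ^ η))) atTop (𝓝 (K * 0)) := by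
    refine Tendsto.const_mul K ?_
    exact (tendsto_rpow_mul_exp_neg_mul_atTop_nhds_zero (M / η) c hcpos).comp
      ((tendsto_rpow_atTop hη).comp tendsto_natCast_atTop_atTop)
  rw [mul_zero] at hlim
  filter_upwards [hlim.eventually_lt_const one_pos, eventually_ge_atTop 1] with x hx hx1
  have hx1' : (1 : ℝ) ≤ x := by exact_mod_cast hx1
  have hx0 : (0 : ℝ) < x := by linarith
  rw [← Real.rpow_mul hx0.le, mul_div_cancel₀ _ hη.ne', hM, Real.rpow_natCast] at hx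
  rw [le_div_iff₀ (by positivity)]
  have h1 : (2 * (x : ℝ) ^ C + 1) ^ (2 * k + 2) ≤ (3 * (x : ℝ) ^ C) ^ (2 * k + 2) := by
    have h2 : (1 : ℝ) ≤ (x : ℝ) ^ C := one_le_pow₀ hx1'
    gcongr
    linarith
  have h3 : -(ε * ((x : ℝ) ^ η / (4 * ((k : ℝ) ^ 2 + 1))) / 2) = -c * (x : ℝ) ^ η := by
    rw [hc]
    have : (k : ℝ) ^ 2 + 1 ≠ 0 := by positivity
    field_simp
    ring
  rw [h3]
  refine le_trans ?_ hx.le
  calc (2 * (x : ℝ) ^ C + 1) ^ (2 * k + 2) * (2 * ((k : ℝ) ^ 2 + 1) *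
        Real.exp (-c * (x : ℝ) ^ η)) * (x : ℝ) ^ 2
      ≤ (3 * (x : ℝ) ^ C) ^ (2 * k + 2) * (2 * ((k : ℝ) ^ 2 + 1) *
        Real.exp (-c * (x : ℝ) ^ η)) * (x : ℝ) ^ 2 := by gcongr
    _ = K * ((x : ℝ) ^ (C * (2 * k + 2) + 2) * Real.exp (-c * (x : ℝ) ^ η)) := by
        rw [hK, mul_pow, ← pow_mul, pow_add]
        ring

/-- **Package UNI.** -/
theorem t_UNI (h : S_CHE) : S_UNI := by
  intro Ω mΩ μ hμ E hE hI
  have key : ∀ k C m l : ℕ, ∀ᵐ ω ∂μ, ∀ᶠ x : ℕ in atTop,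
      Good μ E k C (1 / ((m : ℝ) + 1)) (1 / ((l : ℝ) + 1)) x ω := by
    intro k C m l
    have hε : (0 : ℝ) < 1 / ((m : ℝ) + 1) := by positivity
    have hη : (0 : ℝ) < 1 / ((l : ℝ) + 1) := by positivity
    have hε1 : (1 : ℝ) / ((m : ℝ) + 1) ≤ 1 := by
      rw [div_le_one (by positivity)]
      linarith [Nat.cast_nonneg (α := ℝ) m]
    have hsum : Summable fun x : ℕ =>
        μ.real {ω | ¬ Good μ E k C (1 / ((m : ℝ) + 1)) (1 / ((l : ℝ) + 1)) x ω} := by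
      refine Summable.of_norm_bounded_eventually_nat
        (g := fun x : ℕ => 1 / (x : ℝ) ^ 2) (Real.summable_one_div_nat_pow.2 one_lt_two) ?_
      filter_upwards [eventually_small k C _ _ hε hη,
        ((tendsto_rpow_atTop hη).comp tendsto_natCast_atTop_atTop).eventually_ge_atTop
          (4 * (k : ℝ) ^ 2)] with x hx1 hx2
      rw [Real.norm_of_nonneg measureReal_nonneg]
      exact (bad_le h μ hμ E hE hI k C _ _ hε hε1 x hx2).trans hx1
    have hne : ∑' x : ℕ, μ {ω | ¬ Good μ E k C (1 / ((m : ℝ) + 1)) (1 / ((l : ℝ) + 1)) x ω} ≠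
        ⊤ := by
      have h2 : ∑' x : ℕ, μ {ω | ¬ Good μ E k C (1 / ((m : ℝ) + 1)) (1 / ((l : ℝ) + 1)) x ω} =
          ∑' x : ℕ, ENNReal.ofReal
            (μ.real {ω | ¬ Good μ E k C (1 / ((m : ℝ) + 1)) (1 / ((l : ℝ) + 1)) x ω}) :=
        tsum_congr fun x => (ofReal_measureReal (measure_ne_top μ _)).symm
      rw [h2]
      exact hsum.tsum_ofReal_ne_top
    filter_upwards [ae_eventually_notMem hne] with ω hω
    filter_upwards [hω] with x hx
    by_contra hcon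
    exact hx hcon
  have hall : ∀ᵐ ω ∂μ, ∀ k C m l : ℕ, ∀ᶠ x : ℕ in atTop,
      Good μ E k C (1 / ((m : ℝ) + 1)) (1 / ((l : ℝ) + 1)) x ω := by
    rw [ae_all_iff]
    intro k
    rw [ae_all_iff]
    intro C
    rw [ae_all_iff]
    intro m
    rw [ae_all_iff]
    intro l
    exact key k C m l
  filter_upwards [hall] with ω hω
  intro k C ε η hε hη
  obtain ⟨m, hm⟩ := exists_nat_one_div_lt hε
  obtain ⟨l, hl⟩ := exists_nat_one_div_lt hη
  filter_upwards [hω k C m l, eventually_ge_atTop 1] with x hx hx1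
  intro F J1 J2 h1 h2 h3 h4 h5
  refine (hx F J1 J2 h1 h2 h3 h4 h5).trans (add_le_add ?_ ?_)
  · exact mul_le_mul_of_nonneg_right hm.le
      (Finset.sum_nonneg fun n _ => Finset.prod_nonneg fun f _ => measureReal_nonneg)
  · exact Real.rpow_le_rpow_of_exponent_le (by exact_mod_cast hx1) hl.le

end Pool.Agent.U668.HT
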